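import Mathlib
import Pool.Agent.Q160.GQ13

set_option autoImplicit false

/-!
# Prime values of `a n + 1`, `a ∈ A`, along primes `n`, for sets `A` of growing size

For sets `A` of `s` positive integers up to `H`, with `s` as large as `c log H / log log H`.
-/

namespace Pool.Agent.Results.MP_bca3e5_nt.GrowingSets

open Finset Filter
open Pool.Agent.Q160.GQ (AdmS NS setS vs)

/-- admissible sets, as in the problem -/
def Admissible (A : Finset ℕ) : Prop :=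
  ¬ ∃ p : ℕ, p.Prime ∧ ∀ n : ℕ, 1 ≤ n → p ∣ n * ∏ a ∈ A, (a * n + 1)

/-- the counting function `N_A(x)` of the problem -/
def N (A : Finset ℕ) (x : ℕ) : ℕ := ((Icc 1 x).filter (fun n => n.Prime ∧ ∀ a ∈ A, (a * n + 1).Prime)).card

open Classical in
/-- the admissible sets of `s` integers in `[1, H]` -/
noncomputable def sets (s H : ℕ) : Finset (Finset ℕ) := (powersetCard s (Icc 1 H)).filter Admissible

lemma vs_eq (a n : ℕ) : vs 1 1 a n = ((a * n + 1 : ℕ) : ℤ) := by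
  unfold vs
  push_cast
  ring

lemma adm_iff (A : Finset ℕ) : AdmS 1 1 A ↔ Admissible A := by
  unfold AdmS Admissible
  constructor
  · rintro h ⟨p, hp, hall⟩
    obtain ⟨n, hn, h1⟩ := h p hp
    have hn1 : 1 ≤ n := by
      rcases Nat.eq_zero_or_pos n with h2 | h2
      · exact absurd (h2 ▸ dvd_zero p) hn
      · exact h2
    rcases (Nat.Prime.dvd_mul hp).1 (hall n hn1) with h2 | h2
    · exact hn h2
    · rw [hp.prime.dvd_finset_prod_iff] at h2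
      obtain ⟨a, ha, h3⟩ := h2
      refine h1 a ha ?_
      rw [vs_eq]
      exact Int.natCast_dvd_natCast.2 h3
  · intro h p hp
    by_contra hcon
    push Not at hcon
    refine h ⟨p, hp, fun n _ => ?_⟩
    by_cases hn : p ∣ n
    · exact Dvd.dvd.mul_right hn _
    · obtain ⟨a, ha, h1⟩ := hcon n hn
      rw [vs_eq] at h1
      exact Dvd.dvd.mul_left ((Int.natCast_dvd_natCast.1 h1).trans (dvd_prod_of_mem (fun a => a * n + 1) ha)) _

lemma N_eq (A : Finset ℕ) (x : ℕ) : NS 1 1 A (Icc 1 x) = N A x := by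
  unfold NS N
  congr 1
  refine filter_congr fun n _ => and_congr_right fun _ => ?_
  refine forall_congr' fun a => forall_congr' fun _ => ?_
  rw [vs_eq, Int.toNat_natCast]

open Classical in
lemma sets_eq (s H : ℕ) : setS 1 1 s H = sets s H := by
  unfold setS sets
  ext A
  rw [mem_filter, mem_filter, adm_iff]

open Classical in
theorem result :
    -- the number of admissible sets
    (∃ C : ℝ, 1 ≤ C ∧ ∀ s H : ℕ, 1 ≤ s → C * s ≤ Real.log H →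
      (C⁻¹ * (H / Real.log (s + 2))) ^ s ≤ s.factorial * ((sets s H).card : ℝ) ∧
      s.factorial * ((sets s H).card : ℝ) ≤ (C * (H / Real.log (s + 2))) ^ s) ∧
    -- lower bound
    (∃ (K : ℕ) (C : ℝ), 1 ≤ C ∧ ∀ s H x : ℕ, 1 ≤ s → C * s ≤ Real.log H → (x : ℝ) * Real.log H ^ K ≤ H →
      (C * (Real.log H / Real.log (s + 2))) ^ s ≤ x / Real.log x →
      (C ^ s)⁻¹ * ((sets s H).card : ℝ) ≤ (((sets s H).filter (fun A =>
        (x / Real.log x) * ((C * (Real.log H / Real.log (s + 2))) ^ s)⁻¹ ≤ (N A x : ℝ))).card : ℝ)) ∧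
    -- upper bound
    (∃ C : ℝ, 1 ≤ C ∧ ∀ s H : ℕ, 1 ≤ s → C * s ≤ Real.log H → ∀ x : ℕ, ∀ t : ℝ, 0 < t →
      (((powersetCard s (Icc 1 H)).filter (fun A => t ≤ (N A x : ℝ))).card : ℝ) ≤
        (((Icc 1 x).filter Nat.Prime).card : ℝ) / t * (C * (Real.log (s + 2) / Real.log H)) ^ s * ((sets s H).card : ℝ)) ∧
    -- the bound of the problem with `s` growing
    (∃ C : ℝ, 1 ≤ C ∧ ∀ θ Λ ε : ℝ, 1 < θ → 1 ≤ Λ → 0 < ε → ε < 1 → ∀ᶠ x : ℕ in atTop, ∀ s H : ℕ,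
      (x : ℝ) ^ θ ≤ H → (H : ℝ) ≤ (x : ℝ) ^ Λ → 1 ≤ s → (s : ℝ) ≤ (1 - ε) * (Real.log x / Real.log (Real.log x)) →
      (C ^ s)⁻¹ * ((sets s H).card : ℝ) ≤ (((sets s H).filter (fun A =>
        (Real.log (s + 2) / (C * Λ)) ^ s * (x / Real.log x ^ (s + 1)) ≤ (N A x : ℝ))).card : ℝ)) ∧
    -- larger `s`
    (∃ C : ℝ, 1 ≤ C ∧ ∀ Λ ε M : ℝ, 1 ≤ Λ → 0 < ε → 0 < M → ∀ᶠ x : ℕ in atTop, ∀ s H : ℕ,
      x ≤ H → (H : ℝ) ≤ (x : ℝ) ^ Λ → (1 + ε) * (Real.log x / Real.log (Real.log x)) ≤ s → C * s ≤ Real.log H →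
      M ^ s * (((powersetCard s (Icc 1 H)).filter (fun A => 0 < N A x)).card : ℝ) ≤ ((sets s H).card : ℝ)) := by
  have hc : (1 : ℤ) = 1 ∨ (1 : ℤ) = -1 := Or.inl rfl
  have hpw : Q239.LC.pw 1 = 1 := rfl
  refine ⟨?_, ?_, ?_, ?_, ?_⟩
  · obtain ⟨C, hC, h⟩ := Pool.Agent.Q160.GQ.cardS 1 hc 1 le_rfl
    refine ⟨C, hC, fun s H hs hsH => ?_⟩
    have h1 := h s H hs hsH
    rw [sets_eq] at h1
    exact h1
  · obtain ⟨K, C, hC, h⟩ := Pool.Agent.Q160.GQ.lowS 1 hc 1 le_rfl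
    refine ⟨K, C, hC, fun s H x hs hsH hxH hx => ?_⟩
    have h1 := h s H x hs hsH (by rw [hpw, pow_one]; exact hxH) hx
    simp only [sets_eq, N_eq] at h1
    exact h1
  · obtain ⟨C, hC, h⟩ := Pool.Agent.Q160.GQ.upS 1 hc 1 le_rfl
    refine ⟨C, hC, fun s H hs hsH x t ht => ?_⟩
    have h1 := h s H hs hsH (Icc 1 x) t ht
    simp only [sets_eq, N_eq] at h1
    exact h1
  · obtain ⟨C, hC, h⟩ := Pool.Agent.Q160.GQ.thr_low 1 hc 1 le_rfl
    refine ⟨C, hC, fun θ Λ ε hθ hΛ hε hε1 => ?_⟩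
    have h1 := h θ Λ ε (by rw [hpw]; exact_mod_cast hθ) hΛ hε hε1
    simp only [sets_eq, N_eq] at h1
    exact h1
  · obtain ⟨C, hC, h⟩ := Pool.Agent.Q160.GQ.thr_up 1 hc 1 le_rfl
    refine ⟨C, hC, fun Λ ε M hΛ hε hM => ?_⟩
    have h1 := h Λ ε M hΛ hε hM
    simp only [sets_eq, N_eq] at h1
    exact h1

end Pool.Agent.Results.MP_bca3e5_nt.GrowingSets
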