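import Pool.Agent.Q117.LF.Cnt

/-!
MP_bca3e5_nt (prime values of `a_i n + 1` along primes `n`): `n` prime, a prescribed one of the numbers `a n + 1` a prime or a product of two large
primes, the others almost primes, and all of them isolated at the scale of Rankin.
-/

set_option autoImplicit false

namespace Pool.Agent.Results.MP_bca3e5_nt.IsolatedTuples

/-- the scale of Rankin -/
noncomputable def R (X : ℝ) : ℝ :=
  Real.log X * Real.log (Real.log X) * Real.log (Real.log (Real.log (Real.log X))) / (Real.log (Real.log (Real.log X))) ^ 2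

/-- all prime factors of `m` are `> z` (so `0` is not rough) -/
def Rough (z : ℝ) (m : ℤ) : Prop := ∀ p : ℕ, p.Prime → (p : ℤ) ∣ m → z < p

/-- at most two prime factors (with multiplicity), all `> z` -/
def AtMostTwo (z : ℝ) (m : ℤ) : Prop := m.natAbs.primeFactorsList.length ≤ 2 ∧ Rough z m

/-- a set of positive integers which is admissible in the sense of the problem -/
def Admissible (A : Finset ℕ) : Prop := 0 ∉ A ∧ ∀ p : ℕ, p.Prime → ∃ n : ℕ, ¬ p ∣ n ∧ ∀ a ∈ A, ¬ p ∣ a * n + 1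

/-- every integer within `D` of `n` or of one of the `a n + 1`, `a ∈ A`, other than these numbers, has a prime factor `≤ log X` -/
def Isolated (X D : ℝ) (A : Finset ℕ) (n : ℕ) : Prop :=
  ∀ s : ℤ, s ≠ 0 → |(s : ℝ)| ≤ D → ¬ Rough (Real.log X) ((n : ℤ) + s) ∧ ∀ a ∈ A, ¬ Rough (Real.log X) ((a : ℤ) * n + 1 + s)

theorem result : ∀ A : Finset ℕ, Admissible A → ∀ b ∈ A,
    ∃ t : ℕ, 1 ≤ t ∧ ∃ c : ℝ, 0 < c ∧ ∃ X0 : ℝ, ∀ X : ℝ, X0 ≤ X →
    X ^ (99 / 100 : ℝ) ≤ ({n : ℕ | X < n ∧ (n : ℝ) ≤ 2 * X ∧ n.Prime ∧ AtMostTwo (X ^ (1 / 8 : ℝ)) ((b : ℤ) * n + 1) ∧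
      (∀ a ∈ A, Rough (X ^ (1 / (t : ℝ))) ((a : ℤ) * n + 1)) ∧ Isolated X (c * R X) A n}.ncard : ℝ) := by
  intro A hA b hb
  obtain ⟨t, ht, c, hc, X0, h⟩ := Pool.Agent.Q117.LF.t10 Pool.Agent.Q117.LF.famC A hA.1 hA.2 b hb
  obtain ⟨X1, h1⟩ := Pool.Agent.Q117.LF.Rk_large (c / 2) (by positivity) 1
  refine ⟨t, ht, c / 2, by positivity, max X0 (max X1 0), fun X hX => ?_⟩
  have hX0 : (0 : ℝ) ≤ X := (le_max_right _ _).trans ((le_max_right _ _).trans hX)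
  have hR : 1 ≤ c / 2 * R X := h1 X ((le_max_left _ _).trans ((le_max_right _ _).trans hX))
  have h' := Pool.Agent.Q117.LF.cnt hX0 _ _ (h X ((le_max_left _ _).trans hX))
  refine h'.trans ?_
  have fin : {n : ℕ | X < n ∧ (n : ℝ) ≤ 2 * X ∧ n.Prime ∧ AtMostTwo (X ^ (1 / 8 : ℝ)) ((b : ℤ) * n + 1) ∧
      (∀ a ∈ A, Rough (X ^ (1 / (t : ℝ))) ((a : ℤ) * n + 1)) ∧ Isolated X (c / 2 * R X) A n}.Finite := by
    apply Set.Finite.subset (Set.finite_Iic (⌊2 * X⌋₊))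
    intro n hn
    exact Nat.le_floor hn.2.1
  have sub : {n : ℕ | X < n ∧ (n : ℝ) ≤ 2 * X ∧ n.Prime ∧ Pool.Agent.Q117.LF.Pt (X ^ (1 / 8 : ℝ)) ((b : ℤ) * n + 1) ∧
      (∀ a ∈ A, Pool.Agent.Q117.LF.Ro (X ^ (1 / (t : ℝ))) ((a : ℤ) * n + 1)) ∧
      ∀ s : ℤ, |(s : ℝ)| ≤ c * Pool.Agent.Q117.GP.Rk X → (s ≠ 0 → ¬ Pool.Agent.Q117.LF.Ro (Real.log X) ((n : ℤ) + s)) ∧
        ∀ a ∈ A, s ≠ 1 → ¬ Pool.Agent.Q117.LF.Ro (Real.log X) ((a : ℤ) * n + s)} ⊆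
      {n : ℕ | X < n ∧ (n : ℝ) ≤ 2 * X ∧ n.Prime ∧ AtMostTwo (X ^ (1 / 8 : ℝ)) ((b : ℤ) * n + 1) ∧
      (∀ a ∈ A, Rough (X ^ (1 / (t : ℝ))) ((a : ℤ) * n + 1)) ∧ Isolated X (c / 2 * R X) A n} := by
    rintro n ⟨a1, a2, a3, a4, a5, a6⟩
    refine ⟨a1, a2, a3, a4, a5, fun s hs hsD => ⟨?_, fun a ha => ?_⟩⟩
    · exact (a6 s (hsD.trans (by
        change c / 2 * R X ≤ c * R X
        nlinarith))).1 hs
    · have h2 : |((1 + s : ℤ) : ℝ)| ≤ c * R X := by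
        push_cast
        have := abs_add_le (1 : ℝ) (s : ℝ)
        rw [abs_one] at this
        linarith
      have h3 := (a6 (1 + s) h2).2 a ha (by intro h; apply hs; linarith)
      rwa [← add_assoc] at h3
  exact_mod_cast Set.ncard_le_ncard sub fin

end Pool.Agent.Results.MP_bca3e5_nt.IsolatedTuples
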