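import Pool.Agent.Q250.NP.NatRow

/-!
# Primes `p` with all `a_i p + 1` almost prime: narrow progressions, uniformly in the admissible set
-/

set_option autoImplicit false

namespace Pool.Agent.Results.MP_bca3e5_nt.NarrowProgressions

open Finset Filter Polynomial
open Pool.Agent.Q250.NP
open Pool.Agent.Q253.Line (W NFD rt)

/-- no prime divides `x ∏ (a_i x + 1)` for all `x` -/
def Admissible {m : ℕ} (a : Fin m → ℕ) : Prop :=
  (∀ i, 1 ≤ a i) ∧ ∀ p : ℕ, p.Prime → ∃ x : ℤ, ¬ (p : ℤ) ∣ x * ∏ i, ((a i : ℤ) * x + 1)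

/-- the number of the classes `x` modulo `p` with `p ∣ x ∏ (a_i x + 1)` -/
def omega {m : ℕ} (a : Fin m → ℕ) (p : ℕ) : ℕ :=
  ((range p).filter (fun x : ℕ => (p : ℤ) ∣ (x : ℤ) * ∏ i, ((a i : ℤ) * (x : ℤ) + 1))).card

/-- the product of `1 - omega p / p` over the primes `p ≤ n` -/
noncomputable def dens {m : ℕ} (a : Fin m → ℕ) (n : ℕ) : ℝ := ∏ p ∈ (Icc 1 n).filter Nat.Prime, (1 - (omega a p : ℝ) / p)

open Classical in
/-- the primes `n < p < 2 n` such that all prime factors of all the `a_i p + 1` are larger than `n ^ (1/t)` -/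
noncomputable def Good {m : ℕ} (t n : ℕ) (a : Fin m → ℕ) : Finset ℕ :=
  (Ioo n (2 * n)).filter (fun p : ℕ => p.Prime ∧ ∀ i, ∀ r : ℕ, r.Prime → r ∣ a i * p + 1 → (n : ℝ) ^ (1 / (t : ℝ)) < r)

/-- the polynomials -/
noncomputable def G {m : ℕ} (a : Fin m → ℕ) (i : Fin m) : ℤ[X] := C (a i : ℤ) * X + C 1

theorem eval_G {m : ℕ} (a : Fin m → ℕ) (i : Fin m) (x : ℤ) : (G a i).eval x = (a i : ℤ) * x + 1 := by
  unfold G
  simp

theorem eval_all {m : ℕ} (a : Fin m → ℕ) (x : ℤ) :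
    ((C (1 : ℤ) * X + C (0 : ℤ)) * ∏ i, G a i).eval x = x * ∏ i, ((a i : ℤ) * x + 1) := by
  rw [eval_mul, eval_prod]
  simp only [eval_G, eval_add, eval_mul, eval_C, eval_X]
  ring

theorem nat_val {m : ℕ} {a : Fin m → ℕ} (h : Admissible a) (i : Fin m) {y : ℕ} (hy : 2 ≤ y) :
    ((a i : ℤ) * (y : ℤ) + 1).natAbs = a i * y + 1 ∧ 2 ≤ a i * y + 1 := by
  have h1 := h.1 i
  have h2 : 1 * 2 ≤ a i * y := Nat.mul_le_mul h1 hy
  constructor
  · have h3 : ((a i : ℤ) * (y : ℤ) + 1) = ((a i * y + 1 : ℕ) : ℤ) := by push_cast; ring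
    rw [h3, Int.natAbs_natCast]
  · omega

theorem rep {m k n : ℕ} {a : Fin m → ℕ} (h : Admissible a) (hn : 4 ≤ n) (hs : ∀ i, a i ≤ n ^ k) :
    Rep m (k + 2) n 1 0 (fun y => y) (fun i y => a i * y + 1) (G a) := by
  constructor
  · refine (natDegree_prod_le _ _).trans ?_
    calc _ ≤ ∑ _i : Fin m, 1 := sum_le_sum fun i _ => natDegree_linear_le
      _ = m := by simp
  · intro p hp
    obtain ⟨x, hx⟩ := h.2 p hp
    exact ⟨x, by rw [eval_all]; exact hx⟩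
  · intro y h1 h2
    exact ⟨by simp, h1⟩
  · intro y h1 h2 i
    rw [eval_G]
    exact (nat_val h i (by omega)).1
  · intro y h1 h2 i
    refine ⟨(nat_val h i (by omega)).2, ?_⟩
    have h3 : a i * y ≤ n ^ k * (2 * n - 1) := Nat.mul_le_mul (hs i) (by omega)
    have h5 : 1 ≤ n ^ k := Nat.one_le_pow _ _ (by omega)
    have h4 : n ^ k * (2 * n - 1) + n ^ k ≤ n ^ (k + 2) := by
      have h6 : n ^ k * (2 * n - 1) + n ^ k = n ^ k * (2 * n) := by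
        have h7 : 2 * n = (2 * n - 1) + 1 := by omega
        rw [h7, Nat.mul_add, mul_one, Nat.add_sub_cancel]
      rw [h6, pow_add]
      apply Nat.mul_le_mul_left
      nlinarith
    omega

theorem Good_eq {m : ℕ} (t n : ℕ) (a : Fin m → ℕ) : Good t n a = T (fun y => y) (fun i y => a i * y + 1) t n := rfl

theorem dens_eq {m : ℕ} (a : Fin m → ℕ) (n : ℕ) : dens a n = W ((C (1 : ℤ) * X + C (0 : ℤ)) * ∏ i, G a i) n := by
  unfold dens W
  apply prod_congr rfl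
  intro p _
  unfold omega rt
  simp only [eval_all]

/-- the set `{2}` (Sophie Germain primes) is admissible -/
theorem adm_two : Admissible (fun _ : Fin 1 => 2) := by
  refine ⟨fun _ => by norm_num, fun p hp => ⟨-1, ?_⟩⟩
  rw [Fin.prod_univ_one]
  norm_num
  exact Int.natCast_dvd.not.2 (by simpa using hp.one_lt.ne')

/-- **Narrow progressions of primes `p` with all `a_i p + 1` almost prime, uniformly in the admissible set.** -/
theorem result (m k : ℕ) : ∃ t : ℕ, 1 ≤ t ∧ ∃ c : ℝ, 0 < c ∧ Admissible (fun _ : Fin 1 => 2) ∧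
    (∃ N : ℕ, ∀ n : ℕ, N ≤ n → ∀ a : Fin m → ℕ, Admissible a → (∀ i, a i ≤ n ^ k) →
      c / Real.log n ^ (m + 1) ≤ dens a n ∧ c * (n * dens a n) ≤ ((Good t n a).card : ℝ)) ∧
    (∀ (L : ℕ) (δ : ℝ), 0 < δ → ∃ D N : ℕ, ∀ n : ℕ, N ≤ n → ∀ a : Fin m → ℕ, Admissible a → (∀ i, a i ≤ n ^ k) →
      ∀ S ⊆ Good t n a, δ * ((Good t n a).card : ℝ) ≤ S.card →
        ∃ x d : ℕ, 1 ≤ d ∧ (d : ℝ) ≤ Real.log n ^ D ∧ ∀ j < L, x + j * d ∈ S) ∧
    (∀ (L q : ℕ), 1 ≤ q → ∃ D N : ℕ, ∀ n : ℕ, N ≤ n → ∀ a : Fin m → ℕ, Admissible a → (∀ i, a i ≤ n ^ k) →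
      ∀ col : ℕ → Fin q, ∃ (s : Fin m → ℕ) (b : Fin q) (x d : ℕ), (∀ i, 1 ≤ s i ∧ s i ≤ t * (k + 2)) ∧
        1 ≤ d ∧ (d : ℝ) ≤ Real.log n ^ D ∧ ∀ j < L, n < x + j * d ∧ x + j * d < 2 * n ∧ (x + j * d).Prime ∧ col (x + j * d) = b ∧
          ∀ i, (a i * (x + j * d) + 1).primeFactorsList.length = s i ∧
            ∀ r : ℕ, r.Prime → r ∣ a i * (x + j * d) + 1 → (n : ℝ) ^ (1 / (t : ℝ)) < r) := by
  classical
  obtain ⟨t, ht, H⟩ := natRow m m (k + 2)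
  obtain ⟨c, hc, ⟨N1, h1⟩, h2, h3⟩ := H 1 0 (by norm_num)
  refine ⟨t, ht, c, hc, adm_two, ⟨max N1 4, fun n hn a ha hs => ?_⟩, fun L δ hδ => ?_, fun L q hq => ?_⟩
  · rw [dens_eq, Good_eq]
    exact h1 n ((le_max_left _ _).trans hn) _ _ _ (rep ha ((le_max_right _ _).trans hn) hs)
  · obtain ⟨D, N, h4⟩ := h2 L δ hδ
    refine ⟨D, max N 4, fun n hn a ha hs S hS hSc => ?_⟩
    rw [Good_eq] at hS hSc
    exact h4 n ((le_max_left _ _).trans hn) _ _ _ (rep ha ((le_max_right _ _).trans hn) hs) S hS hSc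
  · obtain ⟨D, N, h4⟩ := h3 L q hq
    refine ⟨D, max N 4, fun n hn a ha hs col => ?_⟩
    obtain ⟨s, b, x, d, g1, g2, g3, g4⟩ := h4 n ((le_max_left _ _).trans hn) _ _ _
      (rep ha ((le_max_right _ _).trans hn) hs) col
    refine ⟨s, b, x, d, g1, g2, g3, fun j hj => ?_⟩
    obtain ⟨g5, g6, g7⟩ := g4 j hj
    unfold T at g5
    rw [mem_filter, mem_Ioo] at g5
    exact ⟨g5.1.1, g5.1.2, g5.2.1, g6, fun i => ⟨g7 i, g5.2.2 i⟩⟩

end Pool.Agent.Results.MP_bca3e5_nt.NarrowProgressions
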