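import Pool.Agent.Q236.GW.PrimeSys

set_option autoImplicit false

/-!
# Quantitative Hypothesis H at prime arguments, for almost primes: number and Poisson law, uniformly in the system

Let `F` be a system of `k` polynomials such that `x, f_1, …, f_k` is a system of irreducible nonconstant
polynomials of degrees at most `D` with coefficients of absolute value at most `X ^ E`, without fixed prime
divisor, no two of which (equal or different) are `±` translates of each other by `1 ≤ t ≤ X ^ η`. Let `P` be the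
set of the PRIMES `q ∈ (u, u + Y]` such that no prime `p ≤ X ^ (1 / r)` divides `q f_1 (q) ⋯ f_k (q)`; all `f_j (q)`
are almost primes. If `Y ≥ δ X`, `u + Y ≤ X`, then `P` has `(1 + O(ε)) Y W / log X` elements, where `W` is the product
of the factors `(1 - ω(p) / p) / (1 - 1 / p)` of the constant of Bateman and Horn over the primes
`p ≤ X ^ (1 / r)`, and the number of the `m ∈ (q, q + T]` such that no prime `p ≤ X ^ (1 / r)` divides
`m f_1 (m) ⋯ f_k (m)`, `q` running over `P`, has the Poisson law of the expected mean, up to `ε`. There is no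
condition on the singular series.

The systems `x, a_1 x + 1, …, a_s x + 1`, where `{a_1, …, a_s}` is ANY admissible set of `s` positive integers
`≤ X ^ E`, are of this kind: the lower bound in the question holds, with an asymptotic formula and uniformly in sets which
grow with `X`, if the numbers `a_i n + 1` are almost primes.
-/

namespace Pool.Agent.Results.MP_bca3e5_nt.PrimeArguments

open Finset Filter Polynomial

/-- The number of the residues `n` modulo `p` for which `p` divides one of the members of the system at `n`. -/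
def ω {k : ℕ} (G : Fin k → ℤ[X]) (p : ℕ) : ℕ :=
  ((Finset.range p).filter (fun n : ℕ => (p : ℤ) ∣ ∏ i, (G i).eval (n : ℤ))).card

/-- The product of `1 - ω(p) / p` over the primes `p ≤ X ^ (1 / r)`. -/
noncomputable def V {k : ℕ} (X r : ℕ) (G : Fin k → ℤ[X]) : ℝ :=
  ∏ p ∈ (Finset.Icc 1 ⌊(X : ℝ) ^ (1 / (r : ℝ))⌋₊).filter Nat.Prime, (1 - (ω G p : ℝ) / p)

/-- The product of `(1 - ω(p) / p) / (1 - 1 / p)` over the primes `p ≤ X ^ (1 / r)`. -/
noncomputable def W {k : ℕ} (X r : ℕ) (G : Fin k → ℤ[X]) : ℝ :=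
  ∏ p ∈ (Finset.Icc 1 ⌊(X : ℝ) ^ (1 / (r : ℝ))⌋₊).filter Nat.Prime, (1 - (ω G p : ℝ) / p) / (1 - 1 / (p : ℝ))

/-- A system of irreducible nonconstant polynomials of degrees at most `D`, with coefficients at most `H`,
without fixed prime divisor, and such that no `g_i` is `± g_j` shifted by `1 ≤ t ≤ U`. -/
structure System {k : ℕ} (D : ℕ) (H U : ℝ) (G : Fin k → ℤ[X]) : Prop where
  irr : ∀ i, Irreducible (G i)
  deg : ∀ i, (G i).natDegree ≠ 0
  degD : ∀ i, (G i).natDegree ≤ D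
  height : ∀ i n, |(((G i).coeff n : ℤ) : ℝ)| ≤ H
  adm : ∀ p : ℕ, p.Prime → ω G p < p
  shift : ∀ i j, ∀ t : ℕ, 1 ≤ t → (t : ℝ) ≤ U →
    G i ≠ (G j).comp (X + C (t : ℤ)) ∧ G i ≠ -(G j).comp (X + C (t : ℤ))

/-- The system `x, f_1, …, f_k`. -/
noncomputable def withX {k : ℕ} (F : Fin k → ℤ[X]) : Fin (k + 1) → ℤ[X] := Fin.cons X F

/-- No prime `p ≤ X ^ (1 / r)` divides `m` or any `f_j (m)`. -/
def Good {k : ℕ} (X : ℕ) (F : Fin k → ℤ[X]) (r m : ℕ) : Prop :=
  ∀ p : ℕ, p.Prime → (p : ℝ) ≤ (X : ℝ) ^ (1 / (r : ℝ)) → ¬ p ∣ m ∧ ∀ j, ¬ (p : ℤ) ∣ (F j).eval (m : ℤ)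

open Classical in
/-- The good primes in `(u, u + Y]`. -/
noncomputable def P {k : ℕ} (X : ℕ) (F : Fin k → ℤ[X]) (r u Y : ℕ) : Finset ℕ :=
  (Finset.Ioc u (u + Y)).filter (fun q => q.Prime ∧ Good X F r q)

open Classical in
/-- The number of the good `m` in `(q, q + T]`. -/
noncomputable def next {k : ℕ} (X : ℕ) (F : Fin k → ℤ[X]) (r T q : ℕ) : ℕ :=
  ((Finset.Ioc q (q + T)).filter (fun m => Good X F r m)).card

/-- The polynomials `a_i x + 1`. -/
noncomputable def dilates {s : ℕ} (a : Fin s → ℕ) : Fin s → ℤ[X] := fun i => C (a i : ℤ) * X + 1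

/-- Admissible sets of distinct positive integers, as in the question. -/
def Admissible {s : ℕ} (a : Fin s → ℕ) : Prop :=
  Function.Injective a ∧ (∀ i, 1 ≤ a i) ∧ ∀ p : ℕ, p.Prime → ∃ n : ℕ, 1 ≤ n ∧ ¬ p ∣ n * ∏ i, (a i * n + 1)

open Pool.Agent.W123.RU Pool.Agent.H373R2.T7 Pool.Agent.TH464.PO Pool.Agent.W123.RP Pool.Agent.Q236.GW
open Pool.Agent.Y879.GL
open Pool.Agent.W123.RU.Poly (Q)

lemma Q_iff {k : ℕ} (F : Fin k → ℤ[X]) (p m : ℕ) (hp : p.Prime) :
    Q F p m ↔ (p : ℤ) ∣ ∏ i, (F i).eval (m : ℤ) := by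
  have hpi : Prime (p : ℤ) := Nat.prime_iff_prime_int.1 hp
  unfold Q
  rw [hpi.dvd_finsetProd_iff]
  exact ⟨fun ⟨i, hi⟩ => ⟨i, Finset.mem_univ i, hi⟩, fun ⟨i, _, hi⟩ => ⟨i, hi⟩⟩

lemma nu_eq {k : ℕ} (F : Fin k → ℤ[X]) (p : ℕ) (hp : p.Prime) : nuB (Q F) p = ω F p := by
  unfold nuB ω
  exact card_iff _ _ (fun m _ => Q_iff F p m hp)

lemma pz_eq (y : ℕ) : pz y = (Finset.Icc 1 y).filter Nat.Prime := by
  ext p
  rw [mem_pz, Finset.mem_filter, Finset.mem_Icc]
  exact ⟨fun h => ⟨⟨h.2.one_lt.le, h.1⟩, h.2⟩, fun h => ⟨h.1.2, h.2⟩⟩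

lemma V_eq {k : ℕ} (X r : ℕ) (F : Fin k → ℤ[X]) : Vq (Q F) ⌊(X : ℝ) ^ (1 / (r : ℝ))⌋₊ = V X r F := by
  unfold Vq V
  rw [pz_eq]
  apply Finset.prod_congr rfl
  intro p hp
  rw [nu_eq F p (Finset.mem_filter.1 hp).2]

lemma W_eq {k : ℕ} (X r : ℕ) (F : Fin k → ℤ[X]) : Vq (Q F) ⌊(X : ℝ) ^ (1 / (r : ℝ))⌋₊ /
    Vz ⌊(X : ℝ) ^ (1 / (r : ℝ))⌋₊ = W X r F := by
  unfold Vq W Vz
  rw [pz_eq, ← Finset.prod_div_distrib]
  apply Finset.prod_congr rfl
  intro p hp
  rw [nu_eq F p (Finset.mem_filter.1 hp).2]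

lemma good_iff {k : ℕ} (X : ℕ) (F : Fin k → ℤ[X]) (r m : ℕ) :
    Sf (Q (withX F)) ⌊(X : ℝ) ^ (1 / (r : ℝ))⌋₊ m ↔ Good X F r m := by
  have h0 : (0 : ℝ) ≤ (X : ℝ) ^ (1 / (r : ℝ)) := by positivity
  have key : ∀ q : ℕ, Q (withX F) q m ↔ (q ∣ m ∨ ∃ j, (q : ℤ) ∣ (F j).eval (m : ℤ)) := by
    intro q
    unfold Q withX
    rw [Fin.exists_fin_succ]
    simp only [Fin.cons_zero, Fin.cons_succ, eval_X]
    rw [Int.natCast_dvd_natCast]
  constructor
  · intro h q hq hqn
    have h1 := h q (mem_pz.2 ⟨Nat.le_floor hqn, hq⟩)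
    rw [key q] at h1
    push Not at h1
    exact h1
  · intro h q hq
    have h1 := h q (mem_pz.1 hq).2 (mem_pz' h0 hq)
    rw [key q]
    push Not
    exact h1

lemma toUS {k D : ℕ} {H U : ℝ} {F : Fin k → ℤ[X]} (h : System D H U F) : US k D H U F where
  irr := h.irr
  deg := h.deg
  degD := h.degD
  hgt := h.height
  adm p hp := by
    obtain ⟨m, _, hm⟩ := nu_exists (Q F) p (by rw [nu_eq F p hp]; exact h.adm p hp)
    exact ⟨m, fun i hi => hm ⟨i, hi⟩⟩
  tr i j t ht htU hass := by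
    rcases assoc_cases hass with h1 | h1
    · exact (h.shift i j t ht htU).1 h1
    · exact (h.shift i j t ht htU).2 h1

lemma few (X r K m : ℕ) (hr : 1 ≤ r) (hX : 2 ^ r ≤ X) (hm : 0 < m) (hmX : m ≤ X ^ K)
    (h : ∀ p : ℕ, p.Prime → p ∣ m → (X : ℝ) ^ (1 / (r : ℝ)) < (p : ℝ)) :
    m.primeFactorsList.length ≤ K * r := by
  have hr0 : (r : ℝ) ≠ 0 := by exact_mod_cast (by omega : r ≠ 0)
  have hX1 : (1 : ℝ) ≤ X := by
    have : 1 ≤ 2 ^ r := Nat.one_le_two_pow
    exact_mod_cast this.trans hX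
  have hz1 : 1 ≤ (X : ℝ) ^ (1 / (r : ℝ)) := Real.one_le_rpow hX1 (by positivity)
  apply length_le m (K * r) (by omega) _ h _ hz1
  have e : ((X : ℝ) ^ (1 / (r : ℝ))) ^ r = X := by
    rw [← Real.rpow_natCast, ← Real.rpow_mul (by linarith), one_div, inv_mul_cancel₀ hr0, Real.rpow_one]
  have hmX' : (m : ℝ) ≤ (X : ℝ) ^ K := by exact_mod_cast hmX
  rw [pow_succ, mul_comm K r, pow_mul, e]
  have h0 : (0 : ℝ) ≤ (X : ℝ) ^ K := by positivity
  nlinarith

lemma irr_lin (a : ℕ) (ha : 1 ≤ a) : Irreducible (C (a : ℤ) * X + 1 : ℤ[X]) := by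
  have h1 : (a : ℤ) ≠ 0 := by exact_mod_cast (by omega : a ≠ 0)
  have h2 : IsRelPrime (a : ℤ) (1 : ℤ) := isRelPrime_one_right
  have h3 := irreducible_C_mul_X_add_C h1 h2
  rwa [C_1] at h3

/-- the two coefficients of the members of the system -/
def uu {s : ℕ} (a : Fin s → ℕ) : Fin (s + 1) → ℕ := Fin.cons 1 a

/-- the constant terms -/
def vv (s : ℕ) : Fin (s + 1) → ℕ := Fin.cons 0 (fun _ => 1)

lemma withX_eq {s : ℕ} (a : Fin s → ℕ) (i : Fin (s + 1)) :
    withX (dilates a) i = C (uu a i : ℤ) * X + C (vv s i : ℤ) := by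
  refine Fin.cases ?_ (fun i => ?_) i
  · simp [withX, uu, vv]
  · simp [withX, uu, vv, dilates]

lemma uu_pos {s : ℕ} (a : Fin s → ℕ) (ha : ∀ i, 1 ≤ a i) (i : Fin (s + 1)) : 1 ≤ uu a i := by
  refine Fin.cases ?_ (fun i => ?_) i
  · simp [uu]
  · simpa [uu] using ha i

lemma sys_dil {s : ℕ} (a : Fin s → ℕ) (H U : ℝ) (ha : Admissible a) (hH : ∀ i, (a i : ℝ) ≤ H) (hH1 : 1 ≤ H) :
    System 1 H U (withX (dilates a)) := by
  obtain ⟨hinj, hpos, hadm⟩ := ha
  have huu := uu_pos a hpos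
  have hne : ∀ i, (uu a i : ℤ) ≠ 0 := fun i => by
    have := huu i
    exact_mod_cast (by omega : uu a i ≠ 0)
  have hdeg : ∀ i, (withX (dilates a) i).natDegree = 1 := fun i => by
    rw [withX_eq]
    exact natDegree_linear (hne i)
  refine ⟨?_, ?_, ?_, ?_, ?_, ?_⟩
  · intro i
    refine Fin.cases ?_ (fun i => ?_) i
    · simp only [withX, Fin.cons_zero]
      exact irreducible_X
    · simp only [withX, Fin.cons_succ, dilates]
      exact irr_lin (a i) (hpos i)
  · intro i
    rw [hdeg]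
    exact one_ne_zero
  · intro i
    rw [hdeg]
  · intro i n
    have h1 : (uu a i : ℝ) ≤ H := by
      refine Fin.cases ?_ (fun i => ?_) i
      · simpa [uu] using hH1
      · simpa [uu] using hH i
    have h2 : (vv s i : ℝ) ≤ H := by
      refine Fin.cases ?_ (fun i => ?_) i
      · simp only [vv, Fin.cons_zero, Nat.cast_zero]
        linarith
      · simpa [vv] using hH1
    have h0 : (0 : ℝ) ≤ H := by linarith
    rw [withX_eq]
    rcases n with _ | _ | n
    · simp only [coeff_add, coeff_C_mul, coeff_X_zero, mul_zero, coeff_C_zero, zero_add, Int.cast_natCast, Nat.abs_cast]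
      exact h2
    · simp only [zero_add, coeff_add, coeff_C_mul, coeff_X_one, mul_one, coeff_C_succ, add_zero, Int.cast_natCast,
        Nat.abs_cast]
      exact h1
    · simp only [coeff_add, coeff_C_mul, coeff_X_of_ne_one (show n + 1 + 1 ≠ 1 by omega), mul_zero, coeff_C_succ,
        add_zero, Int.cast_zero, abs_zero]
      exact h0
  · intro p hp
    obtain ⟨n, hn, hnd⟩ := hadm p hp
    unfold ω
    have hlt : ((range p).filter (fun n : ℕ => (p : ℤ) ∣ ∏ i, (withX (dilates a) i).eval (n : ℤ))).card <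
        (range p).card := by
      apply card_lt_card
      rw [Finset.ssubset_iff_of_subset (filter_subset _ _)]
      refine ⟨n % p, mem_range.2 (Nat.mod_lt _ hp.pos), ?_⟩
      rw [mem_filter]
      rintro ⟨_, h1⟩
      apply hnd
      have h2 : ∏ i, (withX (dilates a) i).eval ((n % p : ℕ) : ℤ) ≡ ∏ i, (withX (dilates a) i).eval (n : ℤ) [ZMOD p] := by
        apply Int.ModEq.prod
        intro i _
        rw [withX_eq]
        simp only [eval_add, eval_mul, eval_C, eval_X]
        apply Int.ModEq.add_right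
        apply Int.ModEq.mul_left
        push_cast
        exact Int.mod_modEq _ _
      have h3 : (p : ℤ) ∣ ∏ i, (withX (dilates a) i).eval (n : ℤ) :=
        (Int.ModEq.dvd_iff h2).1 h1
      rw [Fin.prod_univ_succ] at h3
      simp only [withX, Fin.cons_zero, Fin.cons_succ, dilates, eval_X, eval_add, eval_mul, eval_C, eval_one] at h3
      exact_mod_cast h3
    rwa [card_range] at hlt
  · intro i j t ht _
    have h2 := hadm 2 Nat.prime_two
    have hi0 : ∀ i, 0 ≤ (vv s i : ℤ) := fun i => Int.natCast_nonneg _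
    have ht' : (1 : ℤ) ≤ t := by exact_mod_cast ht
    have hui : ∀ i, (1 : ℤ) ≤ uu a i := fun i => by exact_mod_cast huu i
    rw [withX_eq, withX_eq]
    have hcomp : (C (uu a j : ℤ) * X + C (vv s j : ℤ) : ℤ[X]).comp (X + C (t : ℤ)) =
        C (uu a j : ℤ) * X + C ((uu a j : ℤ) * t + vv s j) := by
      simp only [add_comp, mul_comp, C_comp, X_comp, map_add, map_mul]
      ring
    rw [hcomp]
    have c0 : ∀ x y : ℤ, (C x * X + C y : ℤ[X]).coeff 0 = y := fun x y => by simp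
    have c1 : ∀ x y : ℤ, (C x * X + C y : ℤ[X]).coeff 1 = x := fun x y => by
      rw [coeff_add, coeff_C_mul, coeff_X_one, mul_one, coeff_C_of_ne_zero one_ne_zero, add_zero]
    constructor
    · intro h
      have g1 := congrArg (fun q => q.coeff 1) h
      have g0 := congrArg (fun q => q.coeff 0) h
      simp only [c0, c1] at g0 g1
      have hjt : (1 : ℤ) ≤ uu a j * t := by nlinarith [hui j]
      revert g0 g1
      refine Fin.cases ?_ (fun i' => ?_) i
      · intro g0 g1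
        have h5 := hi0 j
        have h6 : (vv s 0 : ℤ) = 0 := by simp [vv]
        rw [h6] at g0
        linarith
      · revert hjt
        refine Fin.cases ?_ (fun j' => ?_) j
        · intro hjt g0 g1
          simp only [uu, vv, Fin.cons_zero, Fin.cons_succ] at g0 g1
          have ha1 : a i' = 1 := by exact_mod_cast g1
          obtain ⟨n, hn, hnd⟩ := h2
          apply hnd
          have h3 : 2 ∣ n * (n + 1) := (Nat.even_mul_succ_self n).two_dvd
          have h4 : (n + 1) ∣ ∏ i, (a i * n + 1) := by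
            have := Finset.dvd_prod_of_mem (fun i => a i * n + 1) (mem_univ i')
            simp only [ha1, one_mul] at this
            exact this
          exact h3.trans (mul_dvd_mul_left n h4)
        · intro hjt g0 g1
          simp only [uu, vv, Fin.cons_succ] at g0 hjt
          push_cast at g0
          linarith
    · intro h
      have g1 := congrArg (fun q => q.coeff 1) h
      simp only [coeff_neg, c1] at g1
      have := hui i
      have := hui j
      linarith

/-- **Quantitative Hypothesis H at prime arguments, for almost primes, uniformly in the system.** -/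
theorem result (k D : ℕ) :
    (∀ (X r K : ℕ) (F : Fin k → ℤ[X]) (m : ℕ), 1 ≤ r → 2 ^ r ≤ X → Good X F r m →
      ∀ j, 0 < ((F j).eval (m : ℤ)).natAbs → ((F j).eval (m : ℤ)).natAbs ≤ X ^ K →
        ((F j).eval (m : ℤ)).natAbs.primeFactorsList.length ≤ K * r) ∧
    (∀ E η δ : ℝ, 0 < E → 0 < η → 0 < δ → δ ≤ 1 → ∀ x₀ ε : ℝ, 0 < ε → ε ≤ 1 → ∃ r₀ : ℕ, 2 ≤ r₀ ∧
      ∀ r : ℕ, r₀ ≤ r → ∀ᶠ X : ℕ in atTop, ∀ F : Fin k → ℤ[X],
        System D ((X : ℝ) ^ E) ((X : ℝ) ^ η) (withX F) → ∀ u Y : ℕ, δ * X ≤ Y → u + Y ≤ X →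
          |((P X F r u Y).card : ℝ) * Real.log X - Y * W X r (withX F)| ≤ ε * (Y * W X r (withX F)) ∧
          ∀ T : ℕ, T * V X r (withX F) ≤ x₀ → ∀ B : Finset ℕ,
            |(((P X F r u Y).filter (fun q => next X F r T q ∈ B)).card : ℝ) - (P X F r u Y).card *
                ∑ j ∈ B, Real.exp (-(T * V X r (withX F))) * (T * V X r (withX F)) ^ j / (j.factorial : ℝ)| ≤
              ε * (P X F r u Y).card) ∧
    (∀ (s : ℕ) (a : Fin s → ℕ) (H U : ℝ), Admissible a → (∀ i, (a i : ℝ) ≤ H) → 1 ≤ H →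
      System 1 H U (withX (dilates a))) := by
  classical
  refine ⟨?_, ?_, fun s a H U ha hH hH1 => sys_dil a H U ha hH hH1⟩
  · intro X r K F m hr hX hG j h1 h2
    apply few X r K _ hr hX h1 h2
    intro p hp hd
    by_contra hcon
    rw [not_lt] at hcon
    exact (hG p hp hcon).2 j (Int.natCast_dvd.2 hd)
  · intro E η δ hE hη hδ hδ1 x₀ ε hε hε1
    obtain ⟨r₀, hr₀, h⟩ := prime_sys 1 (k + 1) D squarefree_one E η 1 δ hE hη one_pos hδ hδ1 x₀ ε hε hε1
    refine ⟨r₀, hr₀, ?_⟩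
    intro r hr
    filter_upwards [h r hr, eventually_ge_atTop 1] with X hX hX1
    intro F hF u Y hY huY
    have hmain := hX (withX F) 0 (toUS hF) (Nat.coprime_one_left 0) (by
      intro p n hp h1
      exact absurd (Nat.dvd_one.1 h1) hp.one_lt.ne') ⟨0, fun n => by
        unfold withX
        rw [Fin.cons_zero, eval_X]
        push_cast
        ring⟩ (by
        push_cast
        positivity) X (by rw [Real.rpow_one]) u Y hY huY
    rw [W_eq, V_eq] at hmain
    have e1 : Sf (Q (withX F)) ⌊(X : ℝ) ^ (1 / (r : ℝ))⌋₊ = Good X F r := by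
      funext m
      exact propext (good_iff X F r m)
    have e2 : (Ioc u (u + Y)).filter (fun n => (1 * n + 0).Prime ∧
        Sf (Q (withX F)) ⌊(X : ℝ) ^ (1 / (r : ℝ))⌋₊ n) = P X F r u Y := by
      unfold P
      rw [e1]
      apply Finset.filter_congr
      intro n _
      rw [one_mul, add_zero]
    rw [e2] at hmain
    refine ⟨hmain.1, fun T hT B => ?_⟩
    have h3 := hmain.2 T hT B
    have e3 : (Ioc u (u + Y)).filter (fun n => ((1 * n + 0).Prime ∧
          Sf (Q (withX F)) ⌊(X : ℝ) ^ (1 / (r : ℝ))⌋₊ n) ∧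
          Wc (Sf (Q (withX F)) ⌊(X : ℝ) ^ (1 / (r : ℝ))⌋₊) n T ∈ B) =
        (P X F r u Y).filter (fun q => next X F r T q ∈ B) := by
      unfold P next Wc
      rw [e1, Finset.filter_filter]
      apply Finset.filter_congr
      intro n _
      rw [one_mul, add_zero]
    rw [e3] at h3
    exact h3

end Pool.Agent.Results.MP_bca3e5_nt.PrimeArguments
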